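import Pool.Agent.H620R2.Gauge.Defs
import Pool.Agent.NPC.Num

/-!
# Counting relative to an oracle

(Continues `Pool.Agent.H620R2.Gauge.Defs`.)
-/

set_option autoImplicit false

namespace Pool.Agent.TH678.CT

open Pool.Agent.NPC Pool.Agent.H620R2.Gauge

/-- The number of the bit strings `w` of length `r` such that `V` accepts `⟨w, x⟩`. -/
noncomputable def wit (V : List Bool → List Bool) (r : ℕ) (x : List Bool) : ℕ :=
  Nat.card {w : Fin r → Bool // V (pairBits (List.ofFn w) x) = [true]}

/-- The function `g` is in `#P` relative to `A`: for some polynomial-time oracle algorithm `V` and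
some polynomial `q`, `g x` is the number of the strings `w` of length `q(|x|)` such that `V`
accepts `⟨w, x⟩`. -/
def IsSharpP (A : Oracle) (g : List Bool → ℕ) : Prop :=
  ∃ (V : List Bool → List Bool) (q : Polynomial ℕ), IsFP A V ∧ ∀ x, g x = wit V (q.eval x.length) x

/-- The function `g` with values in the natural numbers is in `FP` relative to `A`: the binary
digits of `g x` (the least significant digit first) are computable in polynomial time. -/
def IsFPnum (A : Oracle) (g : List Bool → ℕ) : Prop :=
  ∃ F : List Bool → List Bool, IsFP A F ∧ ∀ x, valB (F x) = g x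

/-- The language `L` is in `⊕P` relative to `A`: it is the set of the `x` such that `g x` is odd,
for a function `g` in `#P`. -/
def IsParP (A : Oracle) (L : Set (List Bool)) : Prop :=
  ∃ g : List Bool → ℕ, IsSharpP A g ∧ ∀ x, x ∈ L ↔ Odd (g x)

end Pool.Agent.TH678.CT
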