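import Pool.Agent.TH678.CT.Num
import Pool.Agent.H620R2.Gauge2.CoverN

/-!
# The thresholds for counting
-/

set_option autoImplicit false

namespace Pool.Agent.TH678.CT

open Pool.Agent.NPC Pool.Agent.H620R2.Gauge Pool.Agent.H622R2 Pool.Agent.TH678.PN
  Pool.Agent.TH678.SW

theorem null_of_np {f : ℕ → ℝ} (hf : Cond f) {O : Set Oracle}
    (hO : ∀ A ∈ O, ∀ L, IsNP A L → IsP A L) : Null f O :=
  nullN hf O fun A hA => IsNP.withAdvice (IsP.isNP (IsP.compl (hO A hA _ (hitLang_np A))))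

theorem main (f : ℕ → ℝ) :
    (∀ O : Set Oracle,
      ((∀ A : Oracle, (∀ g, IsSharpP A g → IsFPnum A g) → A ∈ O) ∨
        (∀ A : Oracle, (∀ L, IsPH A L → IsP A L) → (∀ L, IsEXP A L → IsParP A L) →
          (∃ L, IsParP A L ∧ ¬ IsP A L) → A ∈ O)) →
      (∀ A ∈ O, ∀ L, IsNP A L → WithAdvice (IsNP A) Lᶜ) →
      (Null f O ↔
        ∀ ε : ℝ, 0 < ε → ∃ᶠ N : ℕ in Filter.atTop, f N ≤ 2 ^ (Real.logb 2 N) ^ ε)) ∧
    (Null f {A : Oracle | ∀ g, IsSharpP A g → IsFPnum A g} ↔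
      ∀ ε : ℝ, 0 < ε → ∃ᶠ N : ℕ in Filter.atTop, f N ≤ 2 ^ (Real.logb 2 N) ^ ε) ∧
    (Null f {A : Oracle | (∀ L, IsNP A L → IsP A L) ∧ ∃ g, IsSharpP A g ∧ ¬ IsFPnum A g} ↔
      ∀ ε : ℝ, 0 < ε → ∃ᶠ N : ℕ in Filter.atTop, f N ≤ 2 ^ (Real.logb 2 N) ^ ε) ∧
    (Null f {A : Oracle | (∀ L, IsPH A L → IsP A L) ∧ ∀ L, IsEXP A L → IsParP A L} ↔
      ∀ ε : ℝ, 0 < ε → ∃ᶠ N : ℕ in Filter.atTop, f N ≤ 2 ^ (Real.logb 2 N) ^ ε) := by
  have hlow : ∀ O : Set Oracle,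
      ((∀ A : Oracle, (∀ g, IsSharpP A g → IsFPnum A g) → A ∈ O) ∨
        (∀ A : Oracle, (∀ L, IsPH A L → IsP A L) → (∀ L, IsEXP A L → IsParP A L) →
          (∃ L, IsParP A L ∧ ¬ IsP A L) → A ∈ O)) →
      Null f O → Cond f := by
    intro O hO hN
    by_contra hf
    rcases hO with hO | hO
    · exact not_null1 hf O (fun A hA _ => hO A fun g hg => fpnum_of_pspace hA hg) hN
    · exact not_nullC hf O (fun A h1 h2 h3 => hO A (fun L hL => ph_collapse h1 hL) h3 h2) hN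
  have hup : ∀ O : Set Oracle, (∀ A ∈ O, ∀ L, IsNP A L → IsP A L) → Cond f → Null f O :=
    fun O hO hf => null_of_np hf hO
  refine ⟨fun O h1 h2 => ⟨hlow O h1, fun hf => ?_⟩, ⟨hlow _ (Or.inl fun A h => h),
    hup _ fun A hA L hL => np_of_fp hA hL⟩, ⟨hlow _ (Or.inr ?_), hup _ fun A hA => hA.1⟩,
    ⟨hlow _ (Or.inr fun A h1 h2 _ => ⟨h1, h2⟩), hup _ fun A hA L hL => hA.1 L (IsNP.isPH hL)⟩⟩
  · exact nullN hf O fun A hA => h2 A hA _ (hitLang_np A)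
  · rintro A h1 _ ⟨L, hL1, hL2⟩
    refine ⟨fun L hL => h1 L (IsNP.isPH hL), ?_⟩
    by_contra h
    simp only [not_exists, not_and, not_not] at h
    exact hL2 (parP_of_fp h hL1)

end Pool.Agent.TH678.CT
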