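import Pool.Agent.TH678.CT.Par
import Pool.Agent.H620R2.GaugeR.R2
import Pool.Agent.TH678.PN.Coll

/-!
# Counting and polynomial space
-/

set_option autoImplicit false

namespace Pool.Agent.TH678.CT

open Pool.Agent.NPC Finset H568R2 Pool.Agent.H676 Pool.Agent.H620R2.Gauge Pool.Agent.H622R2
  Pool.Agent.TH678.PN Pool.Agent.TH678.SW

/-! ### consequences of `#P ⊆ FP` -/

theorem isP_of_poly {A : Oracle} {F : List Bool → List Bool} (hF : IsFP A F)
    {H : List Bool × List Bool → Bool} (hH : Poly H) {L : Set (List Bool)}
    (hL : ∀ x, x ∈ L ↔ H (x, F x) = true) : IsP A L := by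
  refine ⟨fun x => if H (x, F x) = true then [true] else [], ?_, fun x => ?_⟩
  · exact IsFP.seq (φ := fun p => p.1) (ψ := fun p => if H (p.1, p.2.1) = true then [true] else [])
      hF (IsFP.of_poly Poly.id) (Poly.fst Poly.id)
      (Poly.ite (Poly.decide_eq (hH.comp (Poly.pair (Poly.fst Poly.id) (Poly.fst (Poly.snd Poly.id))))
        (NPC.Poly.const _)) (NPC.Poly.const _) (NPC.Poly.const _))
  · rw [hL]
    beta_reduce
    split_ifs with h
    · simp [h]
    · simp [h]

theorem parP_of_fp {A : Oracle} (h : ∀ g, IsSharpP A g → IsFPnum A g) {L : Set (List Bool)}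
    (hL : IsParP A L) : IsP A L := by
  obtain ⟨g, hg, hL⟩ := hL
  obtain ⟨F, hF, hFg⟩ := h g hg
  refine isP_of_poly hF (H := fun p => decide (valB p.2 % 2 = 1))
    (Poly.decide_eq (Poly.mod (Poly.valBits (Poly.snd Poly.id)) (NPC.Poly.const 2))
      (NPC.Poly.const 1)) fun x => ?_
  rw [hL, ← hFg, Nat.odd_iff, decide_eq_true_iff]

theorem np_of_fp {A : Oracle} (h : ∀ g, IsSharpP A g → IsFPnum A g) {L : Set (List Bool)}
    (hL : IsNP A L) : IsP A L := by
  obtain ⟨V, p, hV, hL⟩ := hL
  have hg : Poly (fun z : List Bool => pairBits (U1.cand (valB (unpair z).1)) (unpair z).2) :=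
    poly_pairBits (U1.poly_cand.comp (Poly.valBits (Poly.fst poly_unpair))) (Poly.snd poly_unpair)
  obtain ⟨F, hF, hFg⟩ := h _ ⟨fun z => V (pairBits (U1.cand (valB (unpair z).1)) (unpair z).2),
    p + 1, hV.precomp hg, fun x => rfl⟩
  refine isP_of_poly hF (H := fun p => decide (0 < valB p.2))
    (Poly.decide_lt (NPC.Poly.const 0) (Poly.valBits (Poly.snd Poly.id))) fun x => ?_
  rw [hL, hFg, decide_eq_true_iff]
  unfold wit
  rw [Nat.card_pos_iff]
  constructor
  · rintro ⟨w, hw, hVw⟩
    have h1 : (w ++ [true] ++ List.replicate (p.eval x.length - w.length) false).length =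
        (p + 1).eval x.length := by
      rw [List.length_append, List.length_append, List.length_replicate, List.length_singleton,
        Polynomial.eval_add, Polynomial.eval_one]
      omega
    obtain ⟨v, hv⟩ := Pool.Agent.H943R3.PP.N4.exists_ofFn h1
    refine ⟨⟨v, ?_⟩, inferInstance⟩
    beta_reduce
    rw [unpair_pairBits, hv]
    have h2 : valB (w ++ [true] ++ List.replicate (p.eval x.length - w.length) false) =
        valB (w ++ [true]) := by
      rw [valB_append]
      have h3 : ∀ n : ℕ, valB (List.replicate n false) = 0 := by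
        intro n
        induction n with
        | zero => rfl
        | succ n ih => rw [List.replicate_succ, valB_cons, ih]; simp
      rw [h3, mul_zero, add_zero]
    simp only
    rw [h2]
    have h4 : U1.cand (valB (w ++ [true])) = w := by
      rw [U1.cand, (U1.bits_valB w).2]
      simp
    rw [h4]
    exact hVw
  · rintro ⟨⟨v, hv⟩, _⟩
    beta_reduce at hv
    rw [unpair_pairBits] at hv
    refine ⟨_, ?_, hv⟩
    simp only
    rw [U1.length_cand]
    have h1 : (valB (List.ofFn v)).bits.length ≤ (p + 1).eval x.length := by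
      have h2 := valB_lt (List.ofFn v)
      rw [List.length_ofFn] at h2
      rw [Nat.size_eq_bits_len]
      exact Nat.size_le.2 h2
    have h3 : (p + 1).eval x.length = p.eval x.length + 1 := by
      rw [Polynomial.eval_add, Polynomial.eval_one]
    omega

/-! ### a language for the comparison of a number with the number of the witnesses -/

/-- The strings `⟨w, ⟨u, x⟩⟩` with `w = 1 w'` and `V ⟨w', x⟩ = 1` or `w = 0 w'` and `u ≤ w'`. -/
def cmp (V : List Bool → List Bool) : Set (List Bool) :=
  {z | if (unpair z).1.head? = some true then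
      V (pairBits (unpair z).1.tail (unpair (unpair z).2).2) = [true]
    else valB (unpair (unpair z).2).1 ≤ valB (unpair z).1.tail}

theorem cmp_isP {A : Oracle} {V : List Bool → List Bool} (hV : IsFP A V) : IsP A (cmp V) := by
  have h1 : Poly (fun z : List Bool => (unpair z).1) := Poly.fst poly_unpair
  have h2 : Poly (fun z : List Bool => (unpair z).2) := Poly.snd poly_unpair
  have h3 : Poly (fun z : List Bool => (unpair (unpair z).2).1) := h1.comp h2
  have h4 : Poly (fun z : List Bool => (unpair (unpair z).2).2) := h2.comp h2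
  have hF : IsFP A (fun z => V (pairBits (unpair z).1.tail (unpair (unpair z).2).2)) :=
    hV.precomp (poly_pairBits (Poly.tail h1) h4)
  have e1 : Poly (fun p : List Bool × List Bool => (unpair p.1).1) := h1.comp (Poly.fst Poly.id)
  have e3 : Poly (fun p : List Bool × List Bool => (unpair (unpair p.1).2).1) :=
    h3.comp (Poly.fst Poly.id)
  refine isP_of_poly hF (H := fun p => if (unpair p.1).1.head? = some true then
      decide (p.2 = [true]) else
      decide (valB (unpair (unpair p.1).2).1 ≤ valB (unpair p.1).1.tail))
    (Poly.ite (Poly.decide_eq (Poly.head? e1) (NPC.Poly.const _))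
      (Poly.decide_eq (Poly.snd Poly.id) (NPC.Poly.const _))
      (Poly.decide_le (Poly.valBits e3) (Poly.valBits (Poly.tail e1)))) fun z => ?_
  unfold cmp
  rw [Set.mem_ofPred_eq]
  split_ifs with h
  · rw [decide_eq_true_iff]
  · rw [decide_eq_true_iff]

open Pool.Agent.H943R3.PP in
theorem card_ge (m B : ℕ) :
    Nat.card {v : Fin m → Bool // B ≤ valB (List.ofFn v)} = 2 ^ m - min B (2 ^ m) := by
  classical
  have h1 : Nat.card {v : Fin m → Bool // B ≤ valB (List.ofFn v)} +
      Nat.card {v : Fin m → Bool // valB (List.ofFn v) < min B (2 ^ m)} = 2 ^ m := by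
    have h2 : Nat.card {v : Fin m → Bool // valB (List.ofFn v) < min B (2 ^ m)} =
        Nat.card {v : Fin m → Bool // ¬ B ≤ valB (List.ofFn v)} := by
      refine Nat.card_congr (Equiv.subtypeEquivRight fun v => ?_)
      have h3 := valB_lt (List.ofFn v)
      rw [List.length_ofFn] at h3
      rw [lt_min_iff]
      omega
    rw [h2, Nat.card_eq_fintype_card, Nat.card_eq_fintype_card, Fintype.card_subtype_compl,
      Fintype.card_fun, Fintype.card_bool, Fintype.card_fin]
    have h4 := Fintype.card_subtype_le (fun v : Fin m → Bool => B ≤ valB (List.ofFn v))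
    rw [Fintype.card_fun, Fintype.card_bool, Fintype.card_fin] at h4
    omega
  rw [N4.card_lt m (min B (2 ^ m)) (min_le_right _ _)] at h1
  omega

theorem wit_le (V : List Bool → List Bool) (m : ℕ) (x : List Bool) : wit V m x ≤ 2 ^ m := by
  classical
  unfold wit
  rw [Nat.card_eq_fintype_card]
  refine (Fintype.card_subtype_le _).trans ?_
  rw [Fintype.card_fun, Fintype.card_bool, Fintype.card_fin]

open Pool.Agent.H943R3.PP in
theorem card_cmp (V : List Bool → List Bool) (m : ℕ) (y : List Bool) :
    Nat.card {w : Fin (1 + m) → Bool // pairBits (List.ofFn w) y ∈ cmp V} =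
      wit V m (unpair y).2 + (2 ^ m - min (valB (unpair y).1) (2 ^ m)) := by
  classical
  have h1 : Nat.card {w : Fin (1 + m) → Bool // pairBits (List.ofFn w) y ∈ cmp V} =
      Nat.card {w : Fin (1 + m) → Bool // (fun a b : List Bool => if a.head? = some true then
        V (pairBits b (unpair y).2) = [true] else valB (unpair y).1 ≤ valB b)
        ((List.ofFn w).take 1) ((List.ofFn w).drop 1)} := by
    refine Nat.card_congr (Equiv.subtypeEquivRight fun w => ?_)
    unfold cmp
    rw [Set.mem_ofPred_eq, unpair_pairBits]
    beta_reduce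
    rw [List.head?_take, if_neg one_ne_zero, List.drop_one]
  rw [h1, N4.card_split 1 m (fun a b : List Bool => if a.head? = some true then
        V (pairBits b (unpair y).2) = [true] else valB (unpair y).1 ≤ valB b)]
  rw [← Equiv.sum_comp (Equiv.funUnique (Fin 1) Bool).symm, Fintype.sum_bool]
  have h2 : ∀ b : Bool, List.ofFn ((Equiv.funUnique (Fin 1) Bool).symm b) = [b] := fun b => rfl
  rw [h2, h2]
  simp only [List.head?_cons, if_true]
  rw [← card_ge m (valB (unpair y).1)]
  unfold wit
  congr 1

/-- the strings `⟨u, x⟩` such that `u` is less than the number of the witnesses for `x` -/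
noncomputable def below (V : List Bool → List Bool) (q : Polynomial ℕ) : Set (List Bool) :=
  {y | valB (unpair y).1 < wit V (q.eval (unpair y).2.length) (unpair y).2}

theorem below_pspace {A : Oracle} {V : List Bool → List Bool} (hV : IsFP A V) (q : Polynomial ℕ) :
    IsPSPACE A (below V q) := by
  classical
  have hβ : UPoly (fun y : List Bool => 1 + q.eval (unpair y).2.length) :=
    UPoly.add (UPoly.const 1) ((UPoly.length (Poly.snd poly_unpair)).eval q)
  have h1 := Pool.Agent.H943R3.PP.N2.majority (IsP.isPSPACE (cmp_isP hV)) hβ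
  have e : {y : List Bool | 2 ^ (1 + q.eval (unpair y).2.length) <
      2 * Pool.Agent.H943R3.PP.N2.cc (1 + q.eval (unpair y).2.length) y (cmp V)
        (2 ^ (1 + q.eval (unpair y).2.length + 1))} = below V q := by
    ext y
    unfold below
    rw [Set.mem_ofPred_eq, Set.mem_ofPred_eq, ← Pool.Agent.H943R3.PP.N2.card_eq_cc', card_cmp,
      pow_add, pow_one]
    have h2 := wit_le V (q.eval (unpair y).2.length) (unpair y).2
    generalize wit V (q.eval (unpair y).2.length) (unpair y).2 = g at h2 ⊢
    generalize 2 ^ q.eval (unpair y).2.length = P at h2 ⊢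
    rcases le_total (valB (unpair y).1) P with h3 | h3
    · rw [min_eq_left h3]
      omega
    · rw [min_eq_right h3]
      omega
  rwa [e] at h1

/-! ### binary search -/

/-- the number asked for -/
def ask (m : ℕ) (s : List Bool) : ℕ :=
  Pool.Agent.H943R3.PP.N4.pw (m - s.length) * (2 * valB s + 1) - 1

open Pool.Agent.H943R3.PP in
theorem search {g m : ℕ} (hg : g ≤ 2 ^ m) (D : ℕ → Bool) (hD : ∀ n, D n = true ↔ n < g) :
    ∀ i ≤ m + 1, ((fun s : List Bool => D (ask m s) :: s)^[i] []).length = i ∧
      valB ((fun s : List Bool => D (ask m s) :: s)^[i] []) = g / 2 ^ (m + 1 - i) := by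
  intro i
  induction i with
  | zero =>
    intro _
    refine ⟨rfl, ?_⟩
    simp only [Function.iterate_zero, id_eq, valB_nil]
    symm
    apply Nat.div_eq_of_lt
    refine lt_of_le_of_lt hg ?_
    exact Nat.pow_lt_pow_right (by norm_num) (by omega)
  | succ i ih =>
    intro hi
    obtain ⟨h1, h2⟩ := ih (by omega)
    rw [Function.iterate_succ_apply']
    set s := (fun s : List Bool => D (ask m s) :: s)^[i] [] with hs
    refine ⟨by rw [List.length_cons, h1], ?_⟩
    rw [valB_cons]
    have h3 : m + 1 - i = (m + 1 - (i + 1)) + 1 := by omega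
    rw [h3, pow_succ, ← Nat.div_div_eq_div_mul] at h2
    set P := 2 ^ (m + 1 - (i + 1)) with hP
    have hP0 : 0 < P := by rw [hP]; positivity
    have h4 : ask m s = P * (2 * valB s + 1) - 1 := by
      unfold ask
      rw [N4.pw_eq, h1, hP]
      congr 3
      omega
    have h5 : D (ask m s) = true ↔ 2 * valB s + 1 ≤ g / P := by
      rw [hD, h4, Nat.le_div_iff_mul_le hP0, mul_comm (2 * valB s + 1) P]
      have h6 : 0 < P * (2 * valB s + 1) := by positivity
      omega
    by_cases h6 : D (ask m s) = true
    · rw [h6]
      have h7 := h5.1 h6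
      simp only [if_true]
      omega
    · have h7 : ¬ 2 * valB s + 1 ≤ g / P := fun h => h6 (h5.2 h)
      rw [if_neg h6]
      omega

theorem fpnum_of_pspace {A : Oracle} (h : ∀ L, IsPSPACE A L → IsP A L) {g : List Bool → ℕ}
    (hg : IsSharpP A g) : IsFPnum A g := by
  classical
  obtain ⟨V, q, hV, hg⟩ := hg
  obtain ⟨W, hW, hWL⟩ := h _ (below_pspace hV q)
  -- the states of the loop: the input and the digits found so far
  let dcd : List Bool → List Bool × List Bool := fun s => (unbits (List Bool × List Bool) s).getD
    ([], [])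
  have hdcd : ∀ s : List Bool × List Bool, dcd (bits s) = s := fun s => by
    show (unbits (List Bool × List Bool) (bits s)).getD ([], []) = s
    rw [unbits_bits]
    rfl
  have hp : Poly dcd :=
    (Poly.optCases (o := unbits (List Bool × List Bool))
      (g := fun _ => (([], []) : List Bool × List Bool)) (h := fun _ b => b)
      poly_unbits (NPC.Poly.const _) (Poly.snd Poly.id)).congr fun s => by
        show _ = (unbits (List Bool × List Bool) s).getD ([], [])
        cases unbits (List Bool × List Bool) s <;> rfl
  have p1 : Poly (fun s => (dcd s).1) := Poly.fst hp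
  have p2 : Poly (fun s => (dcd s).2) := Poly.snd hp
  have hask : Poly (fun s => ask (q.eval (dcd s).1.length) (dcd s).2) := by
    unfold ask
    have h1 : UPoly (fun s => q.eval (dcd s).1.length - (dcd s).2.length) :=
      UPoly.of_le (Poly.sub ((UPoly.length p1).eval q).toPoly (Poly.length p2))
        ((UPoly.length p1).eval q) (fun a => Nat.sub_le _ _)
    exact Poly.sub (Poly.mul (Pool.Agent.H943R3.PP.N4.poly_pw h1) (Poly.add (Poly.mul
      (NPC.Poly.const 2) (Poly.valBits p2)) (NPC.Poly.const 1))) (NPC.Poly.const 1)
  have hφ : Poly (fun s => pairBits (ask (q.eval (dcd s).1.length) (dcd s).2).bits (dcd s).1) :=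
    poly_pairBits (Poly.natBits hask) p1
  have hF := hW.precomp hφ
  have hψ : Poly (fun p : List Bool × List Bool × List Bool =>
      bits (((dcd p.1).1, decide (p.2.1 = [true]) :: (dcd p.1).2) : List Bool × List Bool)) :=
    R2.poly_bits (Poly.pair (p1.comp (Poly.fst Poly.id)) (Poly.cons (Poly.decide_eq
      (Poly.fst (Poly.snd Poly.id)) (NPC.Poly.const _)) (p2.comp (Poly.fst Poly.id))))
  have hS := IsFP.seq (φ := fun p => p.1) hF (IsFP.of_poly Poly.id) (Poly.fst Poly.id) hψ
  simp only at hS
  set S : List Bool → List Bool := fun s => bits (((dcd s).1, decide (W (pairBits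
    (ask (q.eval (dcd s).1.length) (dcd s).2).bits (dcd s).1) = [true]) :: (dcd s).2) :
      List Bool × List Bool) with hSd
  have hit : ∀ (x : List Bool) (i : ℕ), S^[i] (bits ((x, []) : List Bool × List Bool)) =
      bits ((x, (fun s : List Bool => decide (W (pairBits
        (ask (q.eval x.length) s).bits x) = [true]) :: s)^[i] []) : List Bool × List Bool) := by
    intro x i
    induction i with
    | zero => rfl
    | succ i ih =>
      rw [Function.iterate_succ_apply', ih, hSd]
      simp only [hdcd]
      rw [Function.iterate_succ_apply']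
  have hkey : ∀ x : List Bool, ∀ i ≤ q.eval x.length + 1,
      ((fun s : List Bool => decide (W (pairBits
        (ask (q.eval x.length) s).bits x) = [true]) :: s)^[i] []).length = i ∧
      valB ((fun s : List Bool => decide (W (pairBits
        (ask (q.eval x.length) s).bits x) = [true]) :: s)^[i] []) =
          g x / 2 ^ (q.eval x.length + 1 - i) := by
    intro x
    refine search (g := g x) (m := q.eval x.length) (by rw [hg]; exact wit_le _ _ _)
      (fun n => decide (W (pairBits n.bits x) = [true])) fun n => ?_
    rw [decide_eq_true_iff, ← hWL]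
    unfold below
    rw [Set.mem_ofPred_eq, unpair_pairBits, hg]
    simp only [valB_bits]
  have hL := IsFP.loop (A := A) (S := S) hS (g := fun x => bits ((x, []) : List Bool × List Bool))
    (R2.poly_bits (Poly.pair Poly.id (NPC.Poly.const _))) (q + 1)
    (Polynomial.C 4 * Polynomial.X + Polynomial.C 4 * q + Polynomial.C 8) (by
      intro x i hi
      have hi' : i ≤ q.eval x.length + 1 := by
        simpa only [Polynomial.eval_add, Polynomial.eval_one] using hi
      rw [hit, bits_length, sz_pair]
      have e1 := sz_listBool_le x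
      have e2 := sz_listBool_le ((fun s : List Bool => decide (W (pairBits
        (ask (q.eval x.length) s).bits x) = [true]) :: s)^[i] [])
      rw [(hkey x i hi').1] at e2
      simp only [Polynomial.eval_add, Polynomial.eval_mul, Polynomial.eval_C, Polynomial.eval_X]
      omega)
  have hR := IsFP.comp (IsFP.of_poly (F := fun s => (dcd s).2) p2) hL
  refine ⟨_, hR, fun x => ?_⟩
  rw [hit, hdcd]
  have h1 := (hkey x (q.eval x.length + 1) le_rfl).2
  rw [Nat.sub_self, pow_zero, Nat.div_one] at h1
  rw [← h1, Polynomial.eval_add, Polynomial.eval_one]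

end Pool.Agent.TH678.CT
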