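import Pool.Agent.TH678.CT.Defs
import Pool.Agent.TH678.SW.Pat2
import Pool.Agent.H943R3.PP.N2
import Pool.Agent.H943R3.PP.N4

/-!
# The parities of the blocks are in `⊕P`
-/

set_option autoImplicit false

namespace Pool.Agent.TH678.CT

open Pool.Agent.NPC Finset H568R2 Pool.Agent.H676 Pool.Agent.H620R2.Gauge Pool.Agent.H622R2
  Pool.Agent.TH678.PN Pool.Agent.TH678.SW MeasureTheory

open Pool.Agent.H943R3.PP in
theorem card_wit (P : List Bool → Bool) (n : ℕ) :
    Nat.card {w : Fin n → Bool // P (List.ofFn w) = true} =
      ((range (2 ^ n)).filter (fun v => P (bitsOf n v) = true)).card := by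
  classical
  have h1 : {w : Fin n → Bool // P (List.ofFn w) = true} ≃
      {j : Fin (2 ^ n) // P (bitsOf n j) = true} :=
    (N4.eqv n).subtypeEquiv (fun w => by
      rw [N4.eqv_val]
      have h2 : bitsOf n (valB (List.ofFn w)) = List.ofFn w := by
        have := N4.bitsOf_valB (List.ofFn w)
        rwa [List.length_ofFn] at this
      rw [h2])
  rw [Nat.card_congr h1, Nat.card_eq_fintype_card, Fintype.card_subtype]
  refine Finset.card_bij (fun j _ => (j : ℕ)) ?_ ?_ ?_
  · intro j hj
    rw [Finset.mem_filter] at hj ⊢
    exact ⟨Finset.mem_range.2 j.2, hj.2⟩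
  · intro j _ j' _ h
    exact Fin.ext h
  · intro v hv
    rw [Finset.mem_filter, Finset.mem_range] at hv
    exact ⟨⟨v, hv.1⟩, Finset.mem_filter.2 ⟨Finset.mem_univ _, hv.2⟩, rfl⟩

theorem isFP_ask (A : Oracle) {g : List Bool → List Bool} (hg : Poly g) :
    IsFP A (fun z => [A (g z)]) := by
  have h1 : IsFP A (fun z => (fun p : List Bool × List Bool => p.2) (z, ([g z]).map A)) :=
    IsFP.tt (Q := fun z => [g z]) (H := fun p => p.2) (Poly.cons hg (NPC.Poly.const []))
      (Poly.snd Poly.id)
  exact h1

theorem par_isParP (R : ℕ → Polynomial ℕ) (e : ℕ) (r : Polynomial ℕ) (A : Oracle) :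
    IsParP A {x | Odd ((Finset.range (2 ^ (ell r).eval x.length)).filter
      (fun v => A (code R e (pairBits x (bitsOf ((ell r).eval x.length) v))) = true)).card} := by
  have hg : Poly (fun z : List Bool => code R e (pairBits (unpair z).2 (unpair z).1)) :=
    (CC.poly_code R e).comp (poly_pairBits (Poly.snd poly_unpair) (Poly.fst poly_unpair))
  refine ⟨_, ⟨fun z => [A (code R e (pairBits (unpair z).2 (unpair z).1))], ell r,
    isFP_ask A hg, fun x => rfl⟩, fun x => ?_⟩
  rw [Set.mem_ofPred_eq]
  have h1 : wit (fun z => [A (code R e (pairBits (unpair z).2 (unpair z).1))])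
      ((ell r).eval x.length) x = ((Finset.range (2 ^ (ell r).eval x.length)).filter
      (fun v => A (code R e (pairBits x (bitsOf ((ell r).eval x.length) v))) = true)).card := by
    rw [← card_wit (fun w => A (code R e (pairBits x w))) ((ell r).eval x.length)]
    unfold wit
    refine Nat.card_congr (Equiv.subtypeEquivRight fun w => ?_)
    beta_reduce
    rw [unpair_pairBits, List.cons.injEq]
    exact ⟨fun h => h.1, fun h => ⟨h, rfl⟩⟩
  rw [h1]

theorem not_nullC {f : ℕ → ℝ} (hf : ¬ Cond f) (O : Set Oracle)
    (hO : ∀ A : Oracle, (∀ L, IsNP A L → IsP A L) → (∃ L, IsParP A L ∧ ¬ IsP A L) →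
      (∀ L, IsEXP A L → IsParP A L) → A ∈ O) : ¬ Null f O := by
  classical
  obtain ⟨al, hal⟩ := exists_alg
  obtain ⟨np, hnp⟩ := exists_np
  choose qb hqb using fun j => (al j).out_local
  choose cN hcN using fun i => exists_cN (np i)
  choose rE hrE using fun e => exists_rE (np e)
  obtain ⟨n, hn, hn2⟩ := exists_diag (fun j => ⟨(al j).D, (al j).poly, (al j).p + qb j⟩)
  obtain ⟨K, hK⟩ := exists_const hf
  set R := RR K cN with hR
  obtain ⟨c, hc⟩ := hK R (fun e n => RR_ge K cN e n)
  set p : ℕ → Polynomial ℕ := p2 rE with hp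
  have hjj : ∀ (x : List Bool) (j j' : ℕ), x = List.replicate (n j) true →
      x = List.replicate (n j') true → j' = j := by
    intro x j j' hj hj'
    apply hn
    have h4 := congrArg List.length (hj'.symm.trans hj)
    rwa [List.length_replicate, List.length_replicate] at h4
  have hple : ∀ t : ℕ × List Bool, (p t.1).eval t.2.length ≤ hl p t.1 t.2.length := by
    intro t
    unfold hl
    omega
  have hQ : ∀ (t : ℕ × List Bool) (A : Oracle), ∃ U : Finset (List Bool),
      U.card ≤ 2 ^ hl p t.1 t.2.length ∧ (∀ u ∈ U, u.length ≤ 2 ^ hl p t.1 t.2.length) ∧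
      ∀ A' : Oracle, (∀ u ∈ U, A' u = A u) → (Q2 al n np t A' ↔ Q2 al n np t A) := by
    rintro ⟨e, x⟩ A
    have hle : 2 ^ (p e).eval x.length ≤ 2 ^ hl p e x.length :=
      Nat.pow_le_pow_right (by norm_num) (hple (e, x))
    cases e with
    | zero =>
      by_cases hx : ∃ j, x = List.replicate (n j) true
      · obtain ⟨j, hj⟩ := hx
        obtain ⟨U, hU1, hU2, hU3⟩ := hqb j A x
        have h5 : x.length = n j := by rw [hj, List.length_replicate]
        have h6 := hn2 j
        simp only [Polynomial.eval_add] at h6
        have h7 : (p 0).eval x.length = n j := by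
          rw [hp, h5]
          simp [p2]
        rw [h7] at hle
        rw [h5] at hU1 hU2
        refine ⟨U, by simp only; omega, fun u hu => ?_, fun A' hA' => ?_⟩
        · have h8 := hU2 u hu
          simp only
          omega
        · have h9 := hU3 A' hA'
          constructor
          · rintro ⟨j', h10, h11⟩
            have := hjj x j j' hj h10
            subst this
            exact ⟨j', h10, fun h => h11 (h9.trans h)⟩
          · rintro ⟨j', h10, h11⟩
            have := hjj x j j' hj h10
            subst this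
            exact ⟨j', h10, fun h => h11 (h9.symm.trans h)⟩
      · refine ⟨∅, by simp, by simp, fun A' _ => ?_⟩
        constructor
        · rintro ⟨j, hj, _⟩
          exact absurd ⟨j, hj⟩ hx
        · rintro ⟨j, hj, _⟩
          exact absurd ⟨j, hj⟩ hx
    | succ e =>
      obtain ⟨U, hU1, hU2, hU3⟩ := hrE e x A
      refine ⟨U, hU1.trans hle, fun u hu => (hU2 u hu).trans hle, fun A' hA' => ?_⟩
      simp only [Q2]
      rw [hU3 A' hA']
  let D : Ins (ℕ × List Bool) :=
    { R := R
      np := np
      cN := cN
      hc := fun i x A h => hcN i x A h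
      hR := fun i n => RR_odd K cN i n
      W := fun _ _ => False
      hW := fun _ _ _ _ => Iff.rfl
      lev := fun t => hl p t.1 t.2.length
      Lv := fun k => (level_finite p k).toFinset
      mem_Lv := by
        intro k t
        rw [Set.Finite.mem_toFinset]
        rfl
      card_Lv := by
        intro k
        refine le_trans ?_ (X2_bound p k (level_finite p k).toFinset fun s hs => ?_)
        · rw [Finset.card_eq_sum_ones]
          exact Finset.sum_le_sum fun s _ => Nat.one_le_two_pow
        · rw [Set.Finite.mem_toFinset] at hs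
          exact le_of_eq hs
      two_le := by
        intro t
        unfold hl
        omega
      hWw := fun _ => Or.inl fun _ h => h
      fam := fun t => t.1
      inp := fun t => t.2
      inj := fun t t' h1 h2 => Prod.ext h1 h2
      r := fun e => r3.comp (lev2 p e)
      hr := by
        intro t
        rw [Polynomial.eval_comp, lev2_eval, r3_eval]
      Q := Q2 al n np
      hQ := hQ }
  choose Φ hΦ1 hΦ2 hΦ3 hΦ4 using D.exists_orc
  have hps : ∀ B e, IsParP (Φ B) {x | Q2 al n np (e, x) (Φ B)} := by
    intro B e
    have h1 := par_isParP R (2 * e + 2) (r3.comp (lev2 p e)) (Φ B)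
    have h2 : {x | Q2 al n np (e, x) (Φ B)} = {x : List Bool |
          Odd ((Finset.range (2 ^ (ell (r3.comp (lev2 p e))).eval x.length)).filter
            (fun v => Φ B (code R (2 * e + 2) (pairBits x
              (bitsOf ((ell (r3.comp (lev2 p e))).eval x.length) v))) = true)).card} := by
      ext x
      have h3 := hΦ4 B (e, x)
      rw [Set.mem_ofPred_eq, Set.mem_ofPred_eq]
      change _ ↔ Q2 al n np (e, x) (Φ B) at h3
      rw [← h3]
      unfold Ins.ll
      congr!
    rw [h2]
    exact h1
  refine not_null_of f Set.univ (by rw [measure_univ]; exact one_pos) Φ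
    {y : List Bool | ∃ e z, y = code R e z} ?_ c hc O ?_
  · intro B y hy
    exact hΦ1 B y fun e x h => hy ⟨e, x, h⟩
  · intro B _
    apply hO
    · exact D.np_sub_p (hΦ3 B) hnp
    · refine ⟨_, hps B 0, ?_⟩
      rintro ⟨V, ⟨M, hM⟩, hV⟩
      obtain ⟨j, rfl⟩ := hal M
      have h1 := hV (List.replicate (n j) true)
      have h2 : List.replicate (n j) true ∈ {x | Q2 al n np (0, x) (Φ B)} ↔
          (al j).out (Φ B) (List.replicate (n j) true) ≠ some [true] := by
        rw [Set.mem_ofPred_eq]
        constructor
        · rintro ⟨j', h3, h4⟩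
          have := hjj _ j j' rfl h3
          subst this
          exact h4
        · intro h
          exact ⟨j, rfl, h⟩
      rw [h2, hM, Ne, Option.some.injEq] at h1
      exact not_iff_self h1
    · rintro L ⟨M, hM⟩
      obtain ⟨e, he⟩ := hnp (M, M.p)
      have h1 := hps B (e + 1)
      have h2 : L = {x | Q2 al n np (e + 1, x) (Φ B)} := by
        ext x
        obtain ⟨z, hz, hx⟩ := hM x
        rw [Set.mem_ofPred_eq]
        simp only [Q2, he]
        rw [hz, hx, Option.some.injEq]
      rw [h2]
      exact h1

end Pool.Agent.TH678.CT
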